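import Mathlib

open Set Real Filter Topology Metric

namespace Pool.Agent.H.MP_d5a48f_an

lemma global_sol {F : Type*} [NormedAddCommGroup F] [NormedSpace ℝ F] [CompleteSpace F]
    {f : F → F} {K L : NNReal} (hf : LipschitzWith K f) (hb : ∀ x, ‖f x‖ ≤ L) (x : F) :
    ∃ α : ℝ → F, α 0 = x ∧ ∀ t, HasDerivAt α (f (α t)) t := by
  have h1 : ∀ r : ℝ, ∃ α : ℝ → F, α 0 = x ∧
      ∀ t ∈ Ioo (-(|r| + 1)) (|r| + 1), HasDerivAt α (f (α t)) t := fun r => by
    have h0 : 0 < |r| + 1 := by positivity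
    obtain ⟨α, h1, h2⟩ := (IsPicardLindelof.of_time_independent (tmin := -(|r| + 1))
      (tmax := |r| + 1) (t₀ := ⟨0, by linarith, h0.le⟩) (x₀ := x) (a := L * ⟨_, h0.le⟩) (r := 0)
      (fun x _ => hb x) hf.lipschitzOnWith
      (by simp; rfl)).exists_eq_forall_mem_Icc_hasDerivWithinAt₀
    exact ⟨α, h1, fun t ht => (h2 t (Ioo_subset_Icc_self ht)).hasDerivAt (Icc_mem_nhds ht.1 ht.2)⟩
  choose α h1 h2 using h1
  have h3 : ∀ r s, |r| ≤ |s| → EqOn (α r) (α s) (Ioo (-(|r| + 1)) (|r| + 1)) := fun r s h =>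
    ODE_solution_unique_of_mem_Ioo (v := fun _ => f) (s := fun _ => univ) (t₀ := 0)
      (fun _ _ => hf.lipschitzOnWith) ⟨by linarith [abs_nonneg r], by positivity⟩
      (fun t ht => ⟨h2 r t ht, trivial⟩)
      (fun t ht => ⟨h2 s t (Ioo_subset_Ioo (by linarith) (by linarith) ht), trivial⟩)
      (by rw [h1, h1])
  have h4 : ∀ t : ℝ, t ∈ Ioo (-(|t| + 1)) (|t| + 1) := fun t =>
    ⟨by linarith [neg_abs_le t], by linarith [le_abs_self t]⟩
  refine ⟨fun t => α t t, h1 0, fun t => (h2 t t (h4 t)).congr_of_eventuallyEq ?_⟩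
  filter_upwards [Ioo_mem_nhds (h4 t).1 (h4 t).2] with s hs
  rcases le_total |s| |t| with h | h
  exacts [h3 s t h (h4 s), (h3 t s h hs).symm]

lemma osc_deriv {p : ℕ} (hp : 2 ≤ p) (c φ s : ℝ) :
    HasDerivAt (fun s : ℝ => s ^ (p + 1) * cos (c / s + φ))
      ((p + 1) * (s ^ p * cos (c / s + φ)) + c * (s ^ (p - 1) * cos (c / s + (φ - π / 2)))) s := by
  obtain ⟨q, rfl⟩ := Nat.exists_eq_add_of_le' hp
  rcases eq_or_ne s 0 with rfl | hs
  · simp only [hasDerivAt_iff_tendsto_slope_zero]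
    refine (squeeze_zero_norm' (a := fun s : ℝ => |s| ^ (q + 2)) ?_ ?_).mono_right (by simp)
    · filter_upwards [self_mem_nhdsWithin] with s hs
      have hs : s ≠ 0 := hs
      simp only [zero_add, ne_eq, add_eq_zero, OfNat.ofNat_ne_zero, and_false, one_ne_zero,
        not_false_eq_true, zero_pow, zero_mul, sub_zero, smul_eq_mul, Real.norm_eq_abs]
      rw [pow_succ' s, mul_assoc, inv_mul_cancel_left₀ hs, abs_mul, abs_pow]
      exact mul_le_of_le_one_right (by positivity) (abs_cos_le_one _)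
    · exact tendsto_nhdsWithin_of_tendsto_nhds (Continuous.tendsto' (by fun_prop) _ _ (by simp))
  · refine ((hasDerivAt_pow _ s).mul
      (((hasDerivAt_inv hs).const_mul c).add_const φ).cos).congr_deriv ?_
    rw [← add_sub_assoc, cos_sub_pi_div_two]
    simp only [div_eq_mul_inv, Nat.add_sub_cancel, show q + 2 - 1 = q + 1 from rfl]
    push_cast
    field_simp
    ring

lemma osc_smooth (k : ℕ) : ∀ p, 2 * k ≤ p → ∀ c φ : ℝ,
    ContDiff ℝ k fun s : ℝ => s ^ (p + 1) * cos (c / s + φ) := by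
  induction k with
  | zero =>
    intro p _ c φ
    rw [Nat.cast_zero, contDiff_zero, continuous_iff_continuousAt]
    intro s
    rcases eq_or_ne s 0 with rfl | hs
    · refine squeeze_zero_norm (a := fun s : ℝ => |s| ^ (p + 1)) (fun s => ?_)
        (Continuous.tendsto' (by fun_prop) _ _ (by simp)) |>.mono_right (by simp)
      rw [Real.norm_eq_abs, abs_mul, abs_pow]
      exact mul_le_of_le_one_right (by positivity) (abs_cos_le_one _)
    · fun_prop (disch := assumption)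
  | succ k ih =>
    intro p hp c φ
    obtain ⟨q, rfl⟩ := Nat.exists_eq_add_of_le' (show 2 ≤ p by omega)
    rw [Nat.cast_succ, contDiff_succ_iff_deriv]
    refine ⟨fun s => (osc_deriv (by omega) c φ s).differentiableAt, by simp, ?_⟩
    rw [show deriv _ = _ from funext fun s => (osc_deriv (p := q + 2) (by omega) c φ s).deriv]
    exact (contDiff_const.mul (ih (q + 1) (by omega) c φ)).add
      (contDiff_const.mul (ih q (by omega) c _))

lemma mono_of {M M' : ℝ → ℝ} {t : ℝ} (ht : 0 ≤ t) (h : ∀ s, HasDerivAt M (M' s) s)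
    (h' : ∀ s ∈ Icc 0 t, 0 ≤ M' s) : M 0 ≤ M t :=
  monotoneOn_of_deriv_nonneg (convex_Icc 0 t) (fun s _ => (h s).continuousAt.continuousWithinAt)
    (fun s _ => (h s).differentiableAt.differentiableWithinAt)
    (fun s hs => by rw [(h s).deriv]; exact h' s (interior_subset hs))
    (left_mem_Icc.2 ht) (right_mem_Icc.2 ht) ht

section
variable {x y : ℝ → ℝ} (hx : ∀ s, HasDerivAt x (sin (x s) * cos (y s)) s)
  (hy : ∀ s, HasDerivAt y (-cos (x s) * sin (y s)) s)
include hx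

lemma upper {t : ℝ} (ht : 0 ≤ t) : x t ^ 2 ≤ x 0 ^ 2 * exp (2 * t) := by
  have := mono_of ht (fun s => (((hx s).pow 2).mul ((hasDerivAt_id s).const_mul (-2)).exp).neg)
    fun s _ => by
      have h1 : x s * (sin (x s) * cos (y s)) ≤ x s ^ 2 := by
        refine (le_abs_self _).trans ?_
        rw [abs_mul, abs_mul, ← sq_abs, sq]
        exact mul_le_mul_of_nonneg_left ((mul_le_of_le_one_right (abs_nonneg _)
          (abs_cos_le_one _)).trans abs_sin_le_abs) (abs_nonneg _)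
      simp only [Pi.pow_apply, id]
      norm_num
      nlinarith [exp_pos (-(2 * s))]
  simp only [Pi.neg_apply, Pi.mul_apply, Pi.pow_apply, id, mul_zero, exp_zero, mul_one,
    neg_le_neg_iff, neg_mul, exp_neg, inv_one] at this
  rwa [← div_eq_mul_inv, div_le_iff₀ (exp_pos _)] at this

include hy in
lemma lower {t : ℝ} (ht : 0 ≤ t) (h0 : x 0 ^ 2 * exp (2 * t) ≤ 1) (h1 : y 0 ^ 2 ≤ 1) :
    x 0 ^ 2 * exp (2 * t) / 100 ≤ x t ^ 2 := by
  have h2 : ∀ s ∈ Icc 0 t, 1 - cos (x s) ≤ x 0 ^ 2 * exp (2 * s) / 2 := fun s hs => by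
    linarith [upper hx hs.1, one_sub_sq_div_two_le_cos (x := x s)]
  have h3 : ∀ s ∈ Icc 0 t, x 0 ^ 2 * exp (2 * s) ≤ 1 := fun s hs =>
    (mul_le_mul_of_nonneg_left (exp_le_exp.2 (by linarith [hs.2])) (sq_nonneg _)).trans h0
  have h4 : ∀ s ∈ Icc 0 t, 1 / 2 ≤ cos (y s) := fun s hs => by
    have := mono_of hs.1 (fun r => (hy r).cos) fun r hr => by
      have := h2 r ⟨hr.1, hr.2.trans hs.2⟩
      have := h3 r ⟨hr.1, hr.2.trans hs.2⟩
      nlinarith [mul_nonneg (show 0 ≤ cos (x r) by linarith) (sq_nonneg (sin (y r)))]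
    linarith [one_sub_sq_div_two_le_cos (x := y 0)]
  have h5 : ∀ s ∈ Icc 0 t, 1 - cos (y s) ≤ exp (-(3 / 4) * s) / 2 := fun s hs => by
    have := mono_of hs.1 (fun r => ((hy r).cos.sub_const 1).mul
      ((hasDerivAt_id r).const_mul (3 / 4)).exp) fun r hr => by
      have a1 := h2 r ⟨hr.1, hr.2.trans hs.2⟩
      have a2 := h3 r ⟨hr.1, hr.2.trans hs.2⟩
      have a3 := h4 r ⟨hr.1, hr.2.trans hs.2⟩
      have a4 := sub_nonneg.2 (cos_le_one (y r))
      have a5 : 3 / 4 ≤ cos (x r) * (1 + cos (y r)) := by nlinarith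
      have a6 : 0 ≤ cos (x r) * sin (y r) ^ 2 - 3 / 4 * (1 - cos (y r)) := by
        rw [sin_sq]
        nlinarith [mul_le_mul_of_nonneg_left a5 a4]
      simp only [id]
      nlinarith [mul_nonneg a6 (exp_pos (3 / 4 * r)).le]
    simp only [Pi.mul_apply, id, mul_zero, exp_zero, mul_one] at this
    rw [neg_mul, exp_neg, le_div_iff₀ two_pos, ← mul_le_mul_iff_left₀ (exp_pos (3 / 4 * s)),
      inv_mul_cancel₀ (exp_pos _).ne']
    nlinarith [one_sub_sq_div_two_le_cos (x := y 0)]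
  have h6 := mono_of ht (fun r => ((hx r).cos.const_sub 1).mul
    (((((hasDerivAt_id r).const_mul (-2)).add
      ((((hasDerivAt_id r).const_mul 2).exp.const_mul (x 0 ^ 2)).div_const 4)).sub
      (((hasDerivAt_id r).const_mul (-(3 / 4))).exp.const_mul (4 / 3))).exp)) fun r hr => by
    have a1 := h2 r hr
    have a2 := h5 r hr
    have a3 := sub_nonneg.2 (cos_le_one (x r))
    have a4 := sub_nonneg.2 (cos_le_one (y r))
    simp only [id, Pi.add_apply, Pi.sub_apply]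
    generalize exp (-(3 / 4) * r) = A at *
    generalize exp (2 * r) = B at *
    have a5 : 0 ≤ (1 + cos (x r)) * cos (y r) - 2 + x 0 ^ 2 * B / 2 + A := by
      nlinarith [mul_nonneg a3 a4]
    have a6 := mul_nonneg (mul_nonneg a3 a5) (exp_pos (-2 * r + x 0 ^ 2 * B / 4 - 4 / 3 * A)).le
    linear_combination a6 - cos (y r) * exp (-2 * r + x 0 ^ 2 * B / 4 - 4 / 3 * A) *
      sin_sq_add_cos_sq (x r)
  simp only [id, Pi.mul_apply, Pi.add_apply, Pi.sub_apply, mul_zero, exp_zero, mul_one] at h6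
  have h7 : x 0 ^ 2 ≤ 1 := by simpa using h3 0 ⟨le_rfl, ht⟩
  have h8 : x 0 ^ 2 / 8 ≤ 1 - cos (x 0) := by
    have := cos_le_one_sub_mul_cos_sq (x := x 0)
      ((sq_le_one_iff_abs_le_one _).1 h7 |>.trans (by linarith [pi_gt_three]))
    have h : 1 / 8 ≤ 2 / π ^ 2 := by
      rw [le_div_iff₀ (by positivity)]
      nlinarith [pi_le_four, pi_pos]
    nlinarith [sq_nonneg (x 0)]
  have h9 : exp (-2 * t + x 0 ^ 2 * exp (2 * t) / 4 - 4 / 3 * exp (-(3 / 4) * t)) * exp (2 * t) ≤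
      exp (0 + x 0 ^ 2 / 4 - 4 / 3) * 9 := by
    have : exp 2 ≤ 9 := by
      rw [← one_add_one_eq_two, exp_add]
      nlinarith [exp_one_lt_three, exp_pos 1]
    refine le_trans ?_ (mul_le_mul_of_nonneg_left this (exp_pos _).le)
    rw [← exp_add, ← exp_add, exp_le_exp]
    nlinarith [exp_pos (-(3 / 4) * t), sq_nonneg (x 0)]
  generalize exp (-2 * t + x 0 ^ 2 * exp (2 * t) / 4 - 4 / 3 * exp (-(3 / 4) * t)) = A at *
  have h10 := exp_pos (0 + x 0 ^ 2 / 4 - 4 / 3)
  generalize exp (0 + x 0 ^ 2 / 4 - 4 / 3) = B at *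
  have h11 := sub_nonneg.2 (cos_le_one (x t))
  have h12 := exp_pos (2 * t)
  have h13 : x 0 ^ 2 / 8 * exp (2 * t) * B ≤ (1 - cos (x t)) * 9 * B := by
    nlinarith [mul_le_mul_of_nonneg_left h9 h11, mul_le_mul_of_nonneg_right h6 h12.le,
      mul_le_mul_of_nonneg_right h8 (mul_pos h10 h12).le]
  have h14 := le_of_mul_le_mul_right h13 h10
  nlinarith [one_sub_sq_div_two_le_cos (x := x t), mul_nonneg (sq_nonneg (x 0)) h12.le]

end

end Pool.Agent.H.MP_d5a48f_an
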