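import Pool.Agent.H.MP_d5a48f_an.A

open Set Real Filter Topology Metric

namespace Pool.Agent.H.MP_d5a48f_an

abbrev E := EuclideanSpace ℝ (Fin 2)

noncomputable def U (x : E) : E := !₂[sin (x 0) * cos (x 1), -cos (x 0) * sin (x 1)]

noncomputable def P (x : E) : ℝ := (cos (2 * x 0) + cos (2 * x 1)) / 4

noncomputable def D (x : E) : E →L[ℝ] E := LinearMap.toContinuousLinearMap
  { toFun := fun v => !₂[cos (x 0) * cos (x 1) * v 0 - sin (x 0) * sin (x 1) * v 1,
      sin (x 0) * sin (x 1) * v 0 - cos (x 0) * cos (x 1) * v 1]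
    map_add' := fun v w => by ext i; fin_cases i <;> simp <;> ring
    map_smul' := fun c v => by ext i; fin_cases i <;> simp <;> ring }

lemma D_apply (x v : E) : D x v = !₂[cos (x 0) * cos (x 1) * v 0 - sin (x 0) * sin (x 1) * v 1,
    sin (x 0) * sin (x 1) * v 0 - cos (x 0) * cos (x 1) * v 1] := rfl

lemma pr (i : Fin 2) (x : E) :
    HasStrictFDerivAt (fun x : E => x i) (EuclideanSpace.proj i : E →L[ℝ] ℝ) x :=
  (EuclideanSpace.proj i : E →L[ℝ] ℝ).hasStrictFDerivAt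

lemma U_deriv (x : E) : HasFDerivAt U (D x) x := by
  refine (hasStrictFDerivAt_euclidean.2 fun i => ?_).hasFDerivAt
  fin_cases i
  · refine ((pr 0 x).sin.mul (pr 1 x).cos).congr_fderiv ?_
    ext v
    simp [D_apply]
    ring
  · refine ((pr 0 x).cos.neg.mul (pr 1 x).sin).congr_fderiv ?_
    ext v
    simp [D_apply]
    ring

lemma U_smooth : ContDiff ℝ ⊤ U := by
  rw [contDiff_euclidean]
  intro i
  fin_cases i <;> simp [U] <;> fun_prop

lemma P_grad (x : E) : HasGradientAt P !₂[-(sin (x 0) * cos (x 0)), -(sin (x 1) * cos (x 1))] x := by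
  have := ((((pr 0 x).const_mul 2).cos.add ((pr 1 x).const_mul 2).cos).mul_const (1 / 4)).hasFDerivAt
  refine hasGradientAt_iff_hasFDerivAt.2 ((this.congr_fderiv ?_).congr_of_eventuallyEq
    (Eventually.of_forall fun x => by simp [P, div_eq_mul_inv]))
  ext v
  simp [PiLp.inner_apply, sin_two_mul]
  ring

lemma euler (x : E) : fderiv ℝ U x (U x) + gradient P x = 0 := by
  rw [(U_deriv x).fderiv, (P_grad x).gradient]
  ext i
  fin_cases i <;> simp [D_apply, U]
  · linear_combination sin (x 0) * cos (x 0) * sin_sq_add_cos_sq (x 1)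
  · linear_combination sin (x 1) * cos (x 1) * sin_sq_add_cos_sq (x 0)

lemma mul_sq_le {a b : ℝ} (ha : a ^ 2 ≤ 1) (hb : b ^ 2 ≤ 1) : (a * b) ^ 2 ≤ 1 := by
  rw [mul_pow]
  exact mul_le_one₀ ha (sq_nonneg _) hb

lemma U_le (x : E) : ‖U x‖ ≤ 2 := by
  rw [EuclideanSpace.norm_eq]
  refine sqrt_le_iff.2 ⟨by norm_num, ?_⟩
  simp [U]
  linarith [mul_sq_le (sin_sq_le_one (x 0)) (cos_sq_le_one (x 1)),
    mul_sq_le (cos_sq_le_one (x 0)) (sin_sq_le_one (x 1))]

lemma D_le (x : E) : ‖D x‖ ≤ 2 := by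
  refine ContinuousLinearMap.opNorm_le_bound _ zero_le_two fun v => ?_
  refine (sq_le_sq₀ (norm_nonneg _) (by positivity)).1 ?_
  rw [mul_pow, EuclideanSpace.real_norm_sq_eq, EuclideanSpace.real_norm_sq_eq]
  simp only [D_apply, Fin.sum_univ_two, Matrix.cons_val_zero, Matrix.cons_val_one]
  have h1 := mul_sq_le (cos_sq_le_one (x 0)) (cos_sq_le_one (x 1))
  have h2 := mul_sq_le (sin_sq_le_one (x 0)) (sin_sq_le_one (x 1))
  generalize cos (x 0) * cos (x 1) = a at *
  generalize sin (x 0) * sin (x 1) = b at *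
  nlinarith [sq_nonneg (a * v 0 + b * v 1), sq_nonneg (b * v 0 + a * v 1),
    mul_le_mul_of_nonneg_right h1 (sq_nonneg (v 0)), mul_le_mul_of_nonneg_right h1 (sq_nonneg (v 1)),
    mul_le_mul_of_nonneg_right h2 (sq_nonneg (v 0)), mul_le_mul_of_nonneg_right h2 (sq_nonneg (v 1))]

lemma U_lip : LipschitzWith 2 U :=
  lipschitzWith_of_nnnorm_fderiv_le (𝕜 := ℝ) (fun x => (U_deriv x).differentiableAt) fun x => by
    rw [(U_deriv x).fderiv]
    exact D_le x

noncomputable def ll (p : ℕ) (s : ℝ) : E := !₂[s ^ p * cos (π / s), s]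

lemma ll_smooth (k : ℕ) : ContDiff ℝ k (ll (2 * k + 1)) := by
  rw [contDiff_euclidean]
  intro i
  fin_cases i
  · simpa [ll] using osc_smooth k _ le_rfl π 0
  · exact contDiff_id

variable {Φ : ℝ → E → E} (h0 : ∀ x, Φ 0 x = x) (h1 : ∀ x t, HasDerivAt (Φ · x) (U (Φ t x)) t)
include h0 h1

lemma flow_lip {t : ℝ} (ht : 0 ≤ t) : LipschitzWith ⟨exp (2 * t), (exp_pos _).le⟩ (Φ t) :=
  LipschitzWith.of_dist_le_mul fun x y => by
    have := dist_le_of_trajectories_ODE (v := fun _ => U) (a := 0) (b := t) (fun _ => U_lip)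
      (fun s _ => (h1 x s).continuousAt.continuousWithinAt) (fun s _ => (h1 x s).hasDerivWithinAt)
      (fun s _ => (h1 y s).continuousAt.continuousWithinAt) (fun s _ => (h1 y s).hasDerivWithinAt)
      le_rfl t ⟨ht, le_rfl⟩
    rw [h0, h0, sub_zero, mul_comm] at this
    exact this

lemma step {p j : ℕ} {t : ℝ} (ht : 0 ≤ t) (hj : 2 ≤ j) (h2 : (2 / j) ^ p * exp t ≤ 1) :
    (2 / (j + 1)) ^ p * exp t / 10 ≤ dist (Φ t (ll p (2 / j))) (Φ t (ll p (2 / (j + 1 : ℕ)))) := by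
  have hx : ∀ z s, HasDerivAt (fun s => Φ s z 0) (sin (Φ s z 0) * cos (Φ s z 1)) s := fun z s =>
    (pr 0 _).hasFDerivAt.comp_hasDerivAt s (h1 z s)
  have hy : ∀ z s, HasDerivAt (fun s => Φ s z 1) (-cos (Φ s z 0) * sin (Φ s z 1)) s := fun z s =>
    (pr 1 _).hasFDerivAt.comp_hasDerivAt s (h1 z s)
  have hj' : (2 : ℝ) ≤ j := by exact_mod_cast hj
  have odd : ∀ m : ℕ, Φ t (ll p (2 / (2 * m + 1 : ℕ))) 0 = 0 := fun m => by
    have := upper (hx (ll p (2 / (2 * m + 1 : ℕ)))) ht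
    have h : cos (π / (2 / (2 * m + 1 : ℕ))) = 0 :=
      cos_eq_zero_iff.2 ⟨m, by push_cast; field_simp⟩
    rw [h0, show ll p (2 / (2 * m + 1 : ℕ)) 0 = 0 from mul_eq_zero_of_right _ h, sq 0, zero_mul,
      zero_mul] at this
    exact pow_eq_zero_iff two_ne_zero |>.1 (le_antisymm this (sq_nonneg _))
  have even : ∀ m : ℕ, j ≤ 2 * m → 2 * m ≤ j + 1 →
      (2 / (j + 1)) ^ p * exp t / 10 ≤ |Φ t (ll p (2 / (2 * m : ℕ))) 0| := fun m a1 a2 => by
    have a1' : (j : ℝ) ≤ (2 * m : ℕ) := by exact_mod_cast a1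
    have a2' : ((2 * m : ℕ) : ℝ) ≤ j + 1 := by exact_mod_cast a2
    have h : cos (π / (2 / (2 * m : ℕ))) ^ 2 = 1 := by
      rw [show π / (2 / (2 * m : ℕ)) = m * π by push_cast; field_simp, cos_nat_mul_pi, ← pow_mul]
      simp
    have e : (ll p (2 / (2 * m : ℕ)) 0) ^ 2 * exp (2 * t) = ((2 / (2 * m : ℕ)) ^ p * exp t) ^ 2 := by
      simp only [ll, Matrix.cons_val_zero]
      rw [mul_pow, h, two_mul t, exp_add]
      ring
    have b1 : (2 / (2 * m : ℕ) : ℝ) ^ p * exp t ≤ (2 / j) ^ p * exp t := by gcongr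
    have b2 : (2 / (j + 1) : ℝ) ^ p * exp t ≤ (2 / (2 * m : ℕ)) ^ p * exp t := by
      gcongr
      linarith
    have := lower (hx (ll p (2 / (2 * m : ℕ)))) (hy _) ht
      (by rw [h0, e]; exact pow_le_one₀ (by positivity) (b1.trans h2))
      (by
        rw [h0]
        exact pow_le_one₀ (div_nonneg zero_le_two (Nat.cast_nonneg _))
          ((div_le_one (by linarith)).2 (by linarith)))
    rw [h0, e] at this
    refine le_trans (le_trans ?_ (le_abs_self _))
      (sq_le_sq.1 (show ((2 / (2 * m : ℕ)) ^ p * exp t / 10) ^ 2 ≤ _ by linarith))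
    linarith
  refine le_trans ?_ (PiLp.dist_apply_le _ _ 0)
  rw [Real.dist_eq]
  obtain ⟨m, rfl | rfl⟩ := Nat.even_or_odd' j
  · rw [odd, sub_zero]
    exact even m le_rfl (by omega)
  · rw [odd, zero_sub, abs_neg]
    exact even (m + 1) (by omega) (by omega)

lemma growth {p : ℕ} (hp : 0 < p) {t : ℝ} (ht : 0 ≤ t) :
    ENNReal.ofReal ((1 / 4) ^ p / 10 * exp (1 / p * t)) ≤ eVariationOn (Φ t ∘ ll p) (Icc 0 1) := by
  obtain ⟨A, hA⟩ : ∃ A, A = exp (1 / p * t) := ⟨_, rfl⟩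
  have h2 : 1 ≤ A := hA ▸ one_le_exp (by positivity)
  have h3 : exp t = A ^ p := by
    rw [hA, ← exp_nat_mul]
    congr 1
    field_simp
  have h4 := Nat.le_ceil A
  have h5 := (Nat.ceil_lt_add_one (by linarith : 0 ≤ A)).le
  generalize ⌈A⌉₊ = K at h4 h5
  have h6 : 1 ≤ K := by exact_mod_cast h2.trans h4
  refine le_trans ?_ (eVariationOn.sum_le_of_monotoneOn_Iic (n := 2 * K)
    (u := fun i => (2 : ℝ) / ((4 * K - i : ℕ) : ℝ)) (fun i _ j hj h => ?_) fun i hi => ?_)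
  · refine le_trans ?_ (Finset.card_nsmul_le_sum _ _ (ENNReal.ofReal ((1 / 4) ^ p / 10))
      fun i hi => ?_)
    · rw [Finset.card_range, nsmul_eq_mul, ← ENNReal.ofReal_natCast,
        ← ENNReal.ofReal_mul (by positivity), ← hA, mul_comm]
      gcongr
      push_cast
      linarith
    · rw [Finset.mem_range] at hi
      obtain ⟨j, hj⟩ : ∃ j, 4 * K - (i + 1) = j := ⟨_, rfl⟩
      have a1 : ((2 * K : ℕ) : ℝ) ≤ j := by exact_mod_cast (by omega)
      have a2 : ((j + 1 : ℕ) : ℝ) ≤ (4 * K : ℕ) := by exact_mod_cast (by omega)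
      push_cast at a1 a2
      rw [edist_dist, hj, show 4 * K - i = j + 1 by omega]
      refine ENNReal.ofReal_le_ofReal (le_trans ?_ (step h0 h1 ht (by omega) ?_))
      · rw [h3, ← mul_pow]
        gcongr
        rw [div_mul_eq_mul_div, le_div_iff₀ (by positivity)]
        linarith
      · rw [h3, ← mul_pow]
        refine pow_le_one₀ (by positivity) ?_
        rw [div_mul_eq_mul_div, div_le_one (by linarith)]
        linarith
  · have : 0 < 4 * K - j := by simp at hj; omega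
    simp only
    gcongr
  · have : ((2 : ℕ) : ℝ) ≤ (4 * K - i : ℕ) := by exact_mod_cast (by omega)
    exact ⟨by positivity, (div_le_one (by push_cast at this; linarith)).2 this⟩

end Pool.Agent.H.MP_d5a48f_an
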